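import Pool.Agent.Results.MP_a60a76_nt.ConductorOrderedPairs
import Pool.Agent.V11326.WO1

/-!
# The Frey-Mazur conjecture for ALL curves with full two-torsion whose conductors lie in windows

We consider ALL elliptic curves `E` over `ℚ` with full rational two-torsion, of whatever height (all quadratic twists
included), ordered by the part `N_E` of the conductor prime to two; there are `X ^ (2 / 3 + o(1))` of them with `N_E ≤ X`. There
are `ν, δ > 0` such that for all sequences `v_n ≥ 1` with exponent of convergence at most `τ` (for example `v_n = 2 ^ n`,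
`τ = 0`) and all `θ < 1` there is a set `F` of real numbers of Hausdorff dimension at most `(1 - ν + τ) / (1 - θ)`, of
measure zero if `τ + θ < ν`, such that for all real `β` outside `F`:

1. For all large `n` NO such `E`, of whatever height, with `|N_E ^ (2 / 3) - β v_n| ≤ v_n ^ θ` is `p`-congruent, for any prime
   `p ≥ 13`, to ANY other elliptic curve `E'` over `ℚ` with full two-torsion and `N_E' ≤ N_E ^ (1 + δ)` (other means not
   isomorphic; quadratic twists of `E` are not excepted). In particular no two non-isomorphic curves in the windows of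
   large index are `p`-congruent for any prime `p ≥ 13`.
2. For EVERY elliptic curve `E₀` over `ℚ` with full two-torsion all but finitely many of the curves `E`, of whatever height,
   with `|N_E ^ (2 / 3) - β v_n| ≤ v_n ^ θ` for some `n` are not `p`-congruent to `E₀` for any prime `p ≥ 13`.

The proof combines the starting result `ConductorOrderedPairs` with a covering argument.
-/

set_option autoImplicit false

namespace Pool.Agent.Results.MP_a60a76_nt.ConductorWindows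

open NumberField IsDedekindDomain MeasureTheory
open Pool.Agent.Results.MP_a60a76_nt.ConductorOrderedPairs

/-- The exponent of convergence of the sequence `v` is at most `τ`: the sum of the `v_n ^ (-p)` converges for all
`p > τ`. -/
def ExpLe (v : ℕ → ℝ) (τ : ℝ) : Prop := ∀ p : ℝ, τ < p → Summable fun n => (v n) ^ (-p)

/-- The part prime to two of the conductor of `E` (`cond` of the file `ConductorOrderedPairs`). -/
noncomputable abbrev cnd (E : WeierstrassCurve ℚ) : ℝ := ConductorOrderedPairs.cond E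

/-- The isomorphism classes of the elliptic curves `E : y² = x³ + Ax + B` over `ℚ` with full rational two-torsion, of whatever
height, with `|N_E ^ (2 / 3) - β v_n| ≤ v_n ^ θ` for some `n`, which are `p`-congruent to `y² = x³ + A₀x + B₀` for some prime
`p ≥ 13`. -/
def PartnersInWindows (A₀ B₀ : ℚ) (v : ℕ → ℝ) (β θ : ℝ) : Set IsoClass :=
  {q | ∃ A B : ℚ, cls (curve A B) = q ∧ 4 * A ^ 3 + 27 * B ^ 2 ≠ 0 ∧ FullTwo (curve A B) ∧
    (∃ n : ℕ, |cnd (curve A B) ^ (2 / 3 : ℝ) - β * v n| ≤ (v n) ^ θ) ∧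
    ∃ p : ℕ, p.Prime ∧ 13 ≤ p ∧ Congruent p A B A₀ B₀}

section

variable {L : Type} [Field L] [NumberField L]

theorem good_smul (v : HeightOneSpectrum (𝓞 L)) (C : WeierstrassCurve.VariableChange L) (E : WeierstrassCurve L) :
    GoodAt v (C • E) ↔ GoodAt v E := by
  constructor
  · rintro ⟨C', h⟩
    refine ⟨C' * C, ?_⟩
    rw [mul_smul]
    exact h
  · rintro ⟨C', h⟩
    refine ⟨C' * C⁻¹, ?_⟩
    rw [mul_smul, inv_smul_smul]
    exact h

theorem semi_smul (v : HeightOneSpectrum (𝓞 L)) (C : WeierstrassCurve.VariableChange L) (E : WeierstrassCurve L) :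
    SemistableAt v (C • E) ↔ SemistableAt v E := by
  constructor
  · rintro ⟨C', h⟩
    refine ⟨C' * C, ?_⟩
    rw [mul_smul]
    exact h
  · rintro ⟨C', h⟩
    refine ⟨C' * C⁻¹, ?_⟩
    rw [mul_smul, inv_smul_smul]
    exact h

theorem cond_smul (C : WeierstrassCurve.VariableChange L) (E : WeierstrassCurve L) :
    ConductorOrderedPairs.cond (C • E) = ConductorOrderedPairs.cond E := by
  unfold ConductorOrderedPairs.cond
  simp only [good_smul, semi_smul]

theorem cond_pos (E : WeierstrassCurve L) : 0 < ConductorOrderedPairs.cond E := by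
  have h : ∀ v : HeightOneSpectrum (𝓞 L), (0 : ℝ) < (Ideal.absNorm v.asIdeal : ℝ) := fun v => by
    have h1 : Ideal.absNorm v.asIdeal ≠ 0 := fun h => v.ne_bot (Ideal.absNorm_eq_zero_iff.1 h)
    exact_mod_cast Nat.pos_of_ne_zero h1
  unfold ConductorOrderedPairs.cond
  refine mul_pos ?_ ?_
  · exact finprod_mem_induction (fun x : ℝ => 0 < x) one_pos (fun x y hx hy => mul_pos hx hy) fun v _ => h v
  · exact finprod_mem_induction (fun x : ℝ => 0 < x) one_pos (fun x y hx hy => mul_pos hx hy) fun v _ => h v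

end

theorem cond_out (E : WeierstrassCurve ℚ) {q : IsoClass} (h : cls E = q) : cnd (Quotient.out q) = cnd E := by
  have h1 : (Quotient.mk'' (Quotient.out q) : IsoClass) = Quotient.mk'' E := by
    rw [← h]
    exact Quotient.out_eq' _
  have h2 := Quotient.eq''.1 h1
  obtain ⟨C, hC⟩ := MulAction.orbitRel_apply.1 h2
  rw [← hC]
  exact cond_smul C E

theorem disc (A B : ℚ) : (curve A B).Δ = -16 * (4 * A ^ 3 + 27 * B ^ 2) := by
  simp only [curve, WeierstrassCurve.Δ, WeierstrassCurve.b₂, WeierstrassCurve.b₄, WeierstrassCurve.b₆,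
    WeierstrassCurve.b₈]
  ring

theorem disc_ne {A B : ℚ} (h : 4 * A ^ 3 + 27 * B ^ 2 ≠ 0) : (curve A B).Δ ≠ 0 := by
  rw [disc]
  exact mul_ne_zero (by norm_num) h

theorem comp_mono {A B : ℚ} {Y Y' : ℝ} (hY : Y ≤ Y') (h : HasCompanion Y A B) : HasCompanion Y' A B := by
  obtain ⟨A', B', h0, h1, h2, h3⟩ := h
  exact ⟨A', B', h0, h1, h2.trans hY, h3⟩

/-- a power saving for all `X ≥ 1` -/
theorem count : ∃ ν δ C : ℝ, 0 < ν ∧ 0 < δ ∧ ∀ X : ℝ, 1 ≤ X → (Exceptional δ X).Finite ∧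
      ((Exceptional δ X).ncard : ℝ) ≤ C * X ^ (2 / 3 - ν) := by
  obtain ⟨h1, h2⟩ := ConductorOrderedPairs.result
  obtain ⟨ν, δ, X₀, hν, hδ, h2⟩ := h2
  obtain ⟨X₁, h1⟩ := h1 (ν / 2) (by positivity)
  obtain ⟨X₂, hX₂⟩ : ∃ X₂ : ℝ, X₂ = max (max X₀ X₁) 1 := ⟨_, rfl⟩
  have hsub : ∀ X : ℝ, Exceptional δ X ⊆ Curves X := fun X q hq => by
    obtain ⟨A, B, h3, h4, h5, h6, -⟩ := hq
    exact ⟨curve A B, h3, disc_ne h4, h5, h6⟩
  have hfin2 : (Curves X₂).Finite :=
    (h1 X₂ (by rw [hX₂]; exact (le_max_right _ _).trans (le_max_left _ _))).1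
  have hmin0 : 0 ≤ 2 / 3 - min (ν / 2) (2 / 3) := by linarith [min_le_right (ν / 2) (2 / 3)]
  refine ⟨min (ν / 2) (2 / 3), δ, 1 + ((Curves X₂).ncard : ℝ), lt_min (by positivity) (by norm_num), hδ,
    fun X hX => ?_⟩
  have hX0 : 0 < X := by linarith
  have hX1 : 1 ≤ X ^ (2 / 3 - min (ν / 2) (2 / 3)) := Real.one_le_rpow hX hmin0
  by_cases hXX : X₂ ≤ X
  · have h3 : X₀ ≤ X := ((le_max_left _ _).trans (le_max_left _ _)).trans (hX₂ ▸ hXX)
    have h4 : X₁ ≤ X := ((le_max_right _ _).trans (le_max_left _ _)).trans (hX₂ ▸ hXX)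
    obtain ⟨h5, -, h6⟩ := h1 X h4
    refine ⟨h5.subset (hsub X), ?_⟩
    calc ((Exceptional δ X).ncard : ℝ) ≤ X ^ (-ν) * (Curves X).ncard := h2 X h3
      _ ≤ X ^ (-ν) * X ^ (2 / 3 + ν / 2) := mul_le_mul_of_nonneg_left h6 (Real.rpow_nonneg hX0.le _)
      _ = X ^ (2 / 3 - ν / 2) := by
          rw [← Real.rpow_add hX0]
          congr 1
          ring
      _ ≤ X ^ (2 / 3 - min (ν / 2) (2 / 3)) :=
          Real.rpow_le_rpow_of_exponent_le hX (by linarith [min_le_left (ν / 2) (2 / 3)])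
      _ ≤ (1 + ((Curves X₂).ncard : ℝ)) * X ^ (2 / 3 - min (ν / 2) (2 / 3)) := by
          have : (0 : ℝ) ≤ ((Curves X₂).ncard : ℝ) := Nat.cast_nonneg _
          nlinarith
  · have hmono : Exceptional δ X ⊆ Curves X₂ := fun q hq => by
      obtain ⟨E, h3, h4, h5, h6⟩ := hsub X hq
      exact ⟨E, h3, h4, h5, h6.trans (not_le.1 hXX).le⟩
    refine ⟨hfin2.subset hmono, ?_⟩
    have h3 : ((Exceptional δ X).ncard : ℝ) ≤ ((Curves X₂).ncard : ℝ) := by
      exact_mod_cast Set.ncard_le_ncard hmono hfin2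
    have h4 : (0 : ℝ) ≤ ((Curves X₂).ncard : ℝ) := Nat.cast_nonneg _
    nlinarith

theorem result :
    ∃ ν δ : ℝ, 0 < ν ∧ ν ≤ 1 ∧ 0 < δ ∧ ∀ (v : ℕ → ℝ) (τ θ : ℝ), (∀ n, 1 ≤ v n) → 0 ≤ τ → ExpLe v τ → θ < 1 →
      ∃ F : Set ℝ, dimH F ≤ ENNReal.ofReal ((1 - ν + τ) / (1 - θ)) ∧ (τ + θ < ν → volume F = 0) ∧
        ∀ β : ℝ, β ∉ F →
          (∃ n₀ : ℕ, ∀ n : ℕ, n₀ ≤ n → ∀ A B : ℚ, 4 * A ^ 3 + 27 * B ^ 2 ≠ 0 → FullTwo (curve A B) →
            |cnd (curve A B) ^ (2 / 3 : ℝ) - β * v n| ≤ (v n) ^ θ →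
              ¬ HasCompanion (cnd (curve A B) ^ (1 + δ)) A B) ∧
          (∀ A₀ B₀ : ℚ, 4 * A₀ ^ 3 + 27 * B₀ ^ 2 ≠ 0 → FullTwo (curve A₀ B₀) →
            (PartnersInWindows A₀ B₀ v β θ).Finite) := by
  obtain ⟨ν, δ, C, hν, hδ, hC⟩ := count
  obtain ⟨h1, -⟩ := ConductorOrderedPairs.result
  obtain ⟨X₁, h1⟩ := h1 1 one_pos
  have hcur : ∀ X : ℝ, (Curves X).Finite := by
    intro X
    refine (h1 (max X X₁) (le_max_right _ _)).1.subset fun q hq => ?_
    obtain ⟨E, h3, h4, h5, h6⟩ := hq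
    exact ⟨E, h3, h4, h5, h6.trans (le_max_left _ _)⟩
  have hN : ∀ (E : WeierstrassCurve ℚ) (q : IsoClass), cls E = q →
      Real.log (cnd (Quotient.out q)) = Real.log (cnd E) := fun E q h => by rw [cond_out E h]
  have hδ1 : 0 < 1 + δ := by linarith
  obtain ⟨ν', hν', hν1, hmain⟩ := Pool.Agent.V11326.WO1.single (r := 2 / 3) (by norm_num)
    {q : IsoClass | ∃ A B : ℚ, cls (curve A B) = q ∧ 4 * A ^ 3 + 27 * B ^ 2 ≠ 0 ∧ FullTwo (curve A B) ∧
      HasCompanion (cnd (curve A B) ^ (1 + δ)) A B}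
    (fun q : IsoClass => ∃ E : WeierstrassCurve ℚ, cls E = q ∧ E.Δ ≠ 0 ∧ FullTwo E)
    (fun q => Real.log (cnd (Quotient.out q))) hν (C := C)
    (fun X hX => by
      refine (hcur X).subset ?_
      rintro q ⟨⟨E, h3, h4, h5⟩, h6⟩
      refine ⟨E, h3, h4, h5, ?_⟩
      rw [hN E q h3] at h6
      exact (Real.log_le_log_iff (cond_pos E) (by linarith)).1 h6)
    (fun X hX => by
      obtain ⟨h3, h4⟩ := hC X hX
      refine le_trans ?_ h4
      refine Nat.cast_le.2 (Set.ncard_le_ncard ?_ h3)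
      rintro q ⟨⟨A, B, h5, h6, h7, h8⟩, -, h9⟩
      rw [hN (curve A B) q h5] at h9
      have h10 := (Real.log_le_log_iff (cond_pos (curve A B)) (by linarith)).1 h9
      exact ⟨A, B, h5, h6, h7, h10,
        comp_mono (Real.rpow_le_rpow (cond_pos (curve A B)).le h10 (by linarith)) h8⟩)
  refine ⟨ν', δ, hν', hν1, hδ, fun v τ θ hv hτ hvτ hθ => ?_⟩
  obtain ⟨F, hF, hF0, h⟩ := hmain v τ θ hv hτ hvτ hθ
  refine ⟨F, hF, hF0, fun β hβ => ?_⟩
  obtain ⟨n₀, hn⟩ := h β hβ
  have hgood : ∀ n : ℕ, n₀ ≤ n → ∀ A B : ℚ, 4 * A ^ 3 + 27 * B ^ 2 ≠ 0 → FullTwo (curve A B) →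
      |cnd (curve A B) ^ (2 / 3 : ℝ) - β * v n| ≤ (v n) ^ θ →
        ¬ HasCompanion (cnd (curve A B) ^ (1 + δ)) A B := by
    intro n hnn A B h3 h4 h5 h6
    refine hn n hnn (cls (curve A B)) ⟨curve A B, rfl, disc_ne h3, h4⟩ ?_ ⟨A, B, rfl, h3, h4, h6⟩
    rw [hN (curve A B) _ rfl, mul_comm, ← Real.rpow_def_of_pos (cond_pos (curve A B))]
    exact h5
  refine ⟨⟨n₀, hgood⟩, fun A₀ B₀ hD₀ hF₀ => ?_⟩
  obtain ⟨W, hW⟩ : ∃ W : ℝ, W = ∑ n ∈ Finset.range n₀, (|β| * v n + (v n) ^ θ) := ⟨_, rfl⟩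
  have hterm : ∀ n, 0 ≤ |β| * v n + (v n) ^ θ := fun n => by
    have hn0 : 0 ≤ v n := by linarith [hv n]
    positivity
  refine ((hcur (max (max (cnd (curve A₀ B₀)) 1) (W ^ (3 / 2 : ℝ)))).union
    (Set.finite_singleton (cls (curve A₀ B₀)))).subset ?_
  rintro q ⟨A, B, h3, h4, h5, ⟨n, h6⟩, p, hp, h7, h8⟩
  by_cases hcls : cls (curve A₀ B₀) = cls (curve A B)
  · right
    rw [← h3, ← hcls]
    exact Set.mem_singleton _
  left
  refine ⟨curve A B, h3, disc_ne h4, h5, ?_⟩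
  have hE : 0 < cnd (curve A B) := cond_pos (curve A B)
  by_cases hnn : n₀ ≤ n
  · refine le_trans ?_ (le_max_left _ _)
    by_contra h9
    rw [not_le, max_lt_iff] at h9
    obtain ⟨h10, h11⟩ := h9
    refine hgood n hnn A B h4 h5 h6 ⟨A₀, B₀, hD₀, hF₀, ?_, hcls, p, hp, h7, h8⟩
    refine h10.le.trans ?_
    calc cnd (curve A B) = cnd (curve A B) ^ (1 : ℝ) := (Real.rpow_one _).symm
      _ ≤ cnd (curve A B) ^ (1 + δ) := Real.rpow_le_rpow_of_exponent_le h11.le (by linarith)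
  · refine le_trans ?_ (le_max_right _ _)
    have h9 : cnd (curve A B) ^ (2 / 3 : ℝ) ≤ W := by
      have h10 := (abs_le.1 h6).2
      have h11 : β * v n ≤ |β| * v n := mul_le_mul_of_nonneg_right (le_abs_self β) (by linarith [hv n])
      have h12 : |β| * v n + (v n) ^ θ ≤ W := by
        rw [hW]
        exact Finset.single_le_sum (f := fun n => |β| * v n + (v n) ^ θ) (fun n _ => hterm n)
          (Finset.mem_range.2 (not_le.1 hnn))
      linarith
    calc cnd (curve A B) = (cnd (curve A B) ^ (2 / 3 : ℝ)) ^ (3 / 2 : ℝ) := by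
          rw [← Real.rpow_mul hE.le]
          norm_num
      _ ≤ W ^ (3 / 2 : ℝ) := Real.rpow_le_rpow (Real.rpow_nonneg hE.le _) h9 (by norm_num)

end Pool.Agent.Results.MP_a60a76_nt.ConductorWindows
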