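import Pool.Agent.Results.MP_a60a76_nt.ConductorWindows
import Pool.Agent.V11326.WP

/-!
# The Frey-Mazur conjecture for ALL curves with full two-torsion whose conductors are close to powers of a typical base

We consider ALL elliptic curves `E` over `ℚ` with full rational two-torsion, of whatever height, and the part `N_E` of the
conductor prime to two. There are `ν, δ > 0` such that for all `lam` with `lam n / log n → ∞` (for example `lam n = n`), all
countable sets `U` and all `θ < 1` there is a set `F` of real numbers of Hausdorff dimension at most `(1 - ν) / (1 - θ)`, of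
measure zero if `θ < ν`, such that for all `x > 1` outside `F` and all `β > 0` in `U`: for all large `n` NO such `E`, of
whatever height, with `|N_E ^ (2 / 3) - β x ^ lam n| ≤ x ^ (θ lam n)` is `p`-congruent, for any prime `p ≥ 13`, to any other
elliptic curve `E'` with full two-torsion and `N_E' ≤ N_E ^ (1 + δ)`; and for every elliptic curve `E₀` over `ℚ` with full
two-torsion only finitely many of these `E` are `p`-congruent to `E₀` for some `p ≥ 13`.

The proof combines the starting result `ConductorOrderedPairs` with the theorem of helper1 that the powers of almost every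
base avoid thin sets. The definitions are those of `ConductorOrderedPairs` and `ConductorWindows`.
-/

set_option autoImplicit false

namespace Pool.Agent.Results.MP_a60a76_nt.ConductorsNearPowers

open NumberField IsDedekindDomain MeasureTheory
open Pool.Agent.Results.MP_a60a76_nt.ConductorOrderedPairs Pool.Agent.Results.MP_a60a76_nt.ConductorWindows

/-- `lam n / log n` tends to infinity (for example `lam n = n`, `n!`). -/
def Fast (lam : ℕ → ℝ) : Prop := Filter.Tendsto (fun n : ℕ => lam n / Real.log n) Filter.atTop Filter.atTop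

/-- The isomorphism classes of the elliptic curves `E : y² = x³ + Ax + B` over `ℚ` with full rational two-torsion, of whatever
height, with `|N_E ^ (2 / 3) - β x ^ lam n| ≤ x ^ (θ lam n)` for some `n`, which are `p`-congruent to `y² = x³ + A₀x + B₀`
for some prime `p ≥ 13`. -/
def PartnersNearPowers (A₀ B₀ : ℚ) (lam : ℕ → ℝ) (β x θ : ℝ) : Set IsoClass :=
  {q | ∃ A B : ℚ, cls (curve A B) = q ∧ 4 * A ^ 3 + 27 * B ^ 2 ≠ 0 ∧ FullTwo (curve A B) ∧
    (∃ n : ℕ, |cnd (curve A B) ^ (2 / 3 : ℝ) - β * x ^ lam n| ≤ x ^ (θ * lam n)) ∧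
    ∃ p : ℕ, p.Prime ∧ 13 ≤ p ∧ Congruent p A B A₀ B₀}

theorem result :
    ∃ ν δ : ℝ, 0 < ν ∧ ν ≤ 1 ∧ 0 < δ ∧ ∀ (lam : ℕ → ℝ) (θ : ℝ), Fast lam → θ < 1 → ∀ U : Set ℝ, U.Countable →
      ∃ F : Set ℝ, dimH F ≤ ENNReal.ofReal ((1 - ν) / (1 - θ)) ∧ (θ < ν → volume F = 0) ∧
        ∀ x : ℝ, 1 < x → x ∉ F → ∀ β ∈ U, 0 < β →
          (∃ n₀ : ℕ, ∀ n : ℕ, n₀ ≤ n → ∀ A B : ℚ, 4 * A ^ 3 + 27 * B ^ 2 ≠ 0 → FullTwo (curve A B) →
            |cnd (curve A B) ^ (2 / 3 : ℝ) - β * x ^ lam n| ≤ x ^ (θ * lam n) →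
              ¬ HasCompanion (cnd (curve A B) ^ (1 + δ)) A B) ∧
          (∀ A₀ B₀ : ℚ, 4 * A₀ ^ 3 + 27 * B₀ ^ 2 ≠ 0 → FullTwo (curve A₀ B₀) →
            (PartnersNearPowers A₀ B₀ lam β x θ).Finite) := by
  obtain ⟨ν, δ, C, hν, hδ, hC⟩ := count
  obtain ⟨h1, -⟩ := ConductorOrderedPairs.result
  obtain ⟨X₁, h1⟩ := h1 1 one_pos
  have hcur : ∀ X : ℝ, (Curves X).Finite := by
    intro X
    refine (h1 (max X X₁) (le_max_right _ _)).1.subset fun q hq => ?_
    obtain ⟨E, h3, h4, h5, h6⟩ := hq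
    exact ⟨E, h3, h4, h5, h6.trans (le_max_left _ _)⟩
  have hN : ∀ (E : WeierstrassCurve ℚ) (q : IsoClass), cls E = q →
      Real.log (cnd (Quotient.out q)) = Real.log (cnd E) := fun E q h => by rw [cond_out E h]
  have hδ1 : 0 < 1 + δ := by linarith
  obtain ⟨ν', hν', hν1, hmain⟩ := Pool.Agent.V11326.WP.single (r := 2 / 3) (by norm_num)
    {q : IsoClass | ∃ A B : ℚ, cls (curve A B) = q ∧ 4 * A ^ 3 + 27 * B ^ 2 ≠ 0 ∧ FullTwo (curve A B) ∧
      HasCompanion (cnd (curve A B) ^ (1 + δ)) A B}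
    (fun q : IsoClass => ∃ E : WeierstrassCurve ℚ, cls E = q ∧ E.Δ ≠ 0 ∧ FullTwo E)
    (fun q => Real.log (cnd (Quotient.out q))) hν (C := C)
    (fun X hX => by
      refine (hcur X).subset ?_
      rintro q ⟨⟨E, h3, h4, h5⟩, h6⟩
      refine ⟨E, h3, h4, h5, ?_⟩
      rw [hN E q h3] at h6
      exact (Real.log_le_log_iff (cond_pos E) (by linarith)).1 h6)
    (fun X hX => by
      obtain ⟨h3, h4⟩ := hC X hX
      refine le_trans ?_ h4
      refine Nat.cast_le.2 (Set.ncard_le_ncard ?_ h3)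
      rintro q ⟨⟨A, B, h5, h6, h7, h8⟩, -, h9⟩
      rw [hN (curve A B) q h5] at h9
      have h10 := (Real.log_le_log_iff (cond_pos (curve A B)) (by linarith)).1 h9
      exact ⟨A, B, h5, h6, h7, h10,
        comp_mono (Real.rpow_le_rpow (cond_pos (curve A B)).le h10 (by linarith)) h8⟩)
  refine ⟨ν', δ, hν', hν1, hδ, fun lam θ hlam hθ U hU => ?_⟩
  obtain ⟨F, hF, hF0, h⟩ := hmain lam θ hlam hθ U hU
  refine ⟨F, hF, hF0, fun x hx hxF β hβ hβ0 => ?_⟩
  obtain ⟨n₀, hn⟩ := h x hx hxF β hβ hβ0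
  have hgood : ∀ n : ℕ, n₀ ≤ n → ∀ A B : ℚ, 4 * A ^ 3 + 27 * B ^ 2 ≠ 0 → FullTwo (curve A B) →
      |cnd (curve A B) ^ (2 / 3 : ℝ) - β * x ^ lam n| ≤ x ^ (θ * lam n) →
        ¬ HasCompanion (cnd (curve A B) ^ (1 + δ)) A B := by
    intro n hnn A B h3 h4 h5 h6
    refine hn n hnn (cls (curve A B)) ⟨curve A B, rfl, disc_ne h3, h4⟩ ?_ ⟨A, B, rfl, h3, h4, h6⟩
    rw [hN (curve A B) _ rfl, mul_comm, ← Real.rpow_def_of_pos (cond_pos (curve A B))]
    exact h5
  refine ⟨⟨n₀, hgood⟩, fun A₀ B₀ hD₀ hF₀ => ?_⟩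
  obtain ⟨W, hW⟩ : ∃ W : ℝ, W = ∑ n ∈ Finset.range n₀, (|β| * x ^ lam n + x ^ (θ * lam n)) := ⟨_, rfl⟩
  have hterm : ∀ n, 0 ≤ |β| * x ^ lam n + x ^ (θ * lam n) := fun n => by
    have hx0 : 0 < x := by linarith
    positivity
  refine ((hcur (max (max (cnd (curve A₀ B₀)) 1) (W ^ (3 / 2 : ℝ)))).union
    (Set.finite_singleton (cls (curve A₀ B₀)))).subset ?_
  rintro q ⟨A, B, h3, h4, h5, ⟨n, h6⟩, p, hp, h7, h8⟩
  by_cases hcls : cls (curve A₀ B₀) = cls (curve A B)
  · right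
    rw [← h3, ← hcls]
    exact Set.mem_singleton _
  left
  refine ⟨curve A B, h3, disc_ne h4, h5, ?_⟩
  have hE : 0 < cnd (curve A B) := cond_pos (curve A B)
  by_cases hnn : n₀ ≤ n
  · refine le_trans ?_ (le_max_left _ _)
    by_contra h9
    rw [not_le, max_lt_iff] at h9
    obtain ⟨h10, h11⟩ := h9
    refine hgood n hnn A B h4 h5 h6 ⟨A₀, B₀, hD₀, hF₀, ?_, hcls, p, hp, h7, h8⟩
    refine h10.le.trans ?_
    calc cnd (curve A B) = cnd (curve A B) ^ (1 : ℝ) := (Real.rpow_one _).symm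
      _ ≤ cnd (curve A B) ^ (1 + δ) := Real.rpow_le_rpow_of_exponent_le h11.le (by linarith)
  · refine le_trans ?_ (le_max_right _ _)
    have h9 : cnd (curve A B) ^ (2 / 3 : ℝ) ≤ W := by
      have h10 := (abs_le.1 h6).2
      have h11 : β * x ^ lam n ≤ |β| * x ^ lam n := mul_le_mul_of_nonneg_right (le_abs_self β) (Real.rpow_nonneg (by linarith) _)
      have h12 : |β| * x ^ lam n + x ^ (θ * lam n) ≤ W := by
        rw [hW]
        exact Finset.single_le_sum (f := fun n => |β| * x ^ lam n + x ^ (θ * lam n)) (fun n _ => hterm n)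
          (Finset.mem_range.2 (not_le.1 hnn))
      linarith
    calc cnd (curve A B) = (cnd (curve A B) ^ (2 / 3 : ℝ)) ^ (3 / 2 : ℝ) := by
          rw [← Real.rpow_mul hE.le]
          norm_num
      _ ≤ W ^ (3 / 2 : ℝ) := Real.rpow_le_rpow (Real.rpow_nonneg hE.le _) h9 (by norm_num)



end Pool.Agent.Results.MP_a60a76_nt.ConductorsNearPowers
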