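import Pool.Agent.Results.MP_a60a76_nt.FewPartners
import Pool.Agent.V11149.Conv

/-!
# The Frey-Mazur conjecture near real numbers: curves whose invariant is a good approximation to a real number outside a set of
# small dimension, and all curves of smaller size

For every `η > 0` there is `δ > 0` such that for all `P ≥ 17` and `κ > 0` and all real numbers `ξ` outside a set of Hausdorff
dimension at most `(7 / (2 P) + η) / κ` the following holds for all but finitely many rational numbers `j` with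
`|j - ξ| ≤ K (den j) ^ (-κ)` (whatever `K` is; for `κ = 2`, `K = 1` all convergents of `ξ` are among them): NO elliptic curve
over `ℚ` with invariant `j` is `p`-congruent, for any prime `p ≥ P`, to ANY curve `y² = x³ + A₀x + B₀` with
`|A₀|, |B₀| ≤ H(j) ^ δ`. Moreover there is ONE set `Z` of Hausdorff dimension zero such that for every real number `ξ`
outside `Z` and every `κ > 0` this is true for some `P` and `δ > 0`.

Proof. By the starting theorem `FewPartners` at most `C |4A₀³ + 27B₀²| ^ λ X ^ (7 / (2P) + ε)` rational numbers of height at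
most `X` are invariants of curves which are `p`-congruent to `y² = x³ + A₀x + B₀` for some `p ≥ P`; this is summed over the
`A₀`, `B₀` with `|A₀|, |B₀| ≤ X ^ δ`. The neighbourhoods of radius `K (den j) ^ (-κ)` of these `j` are a cover of the limsup
set by intervals with convergent sum of the `D`-th powers of the lengths for all `D > (7 / (2P) + η) / κ`.
-/

set_option autoImplicit false

open WeierstrassCurve MeasureTheory
open scoped Classical

namespace Pool.Agent.Results.MP_a60a76_nt.NearAlmostEveryPoint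

/-- The curve `y² = x³ + Ax + B` over `ℚ`. -/
def curve (A B : ℚ) : WeierstrassCurve ℚ := ⟨0, 0, 0, A, B⟩

/-- The group of its points over the algebraic closure of `ℚ`. -/
abbrev Points (A B : ℚ) : Type := ((curve A B).baseChange (AlgebraicClosure ℚ)).toAffine.Point

/-- The action of an automorphism `σ` of the algebraic closure on the points. -/
noncomputable def galois (A B : ℚ) (σ : AlgebraicClosure ℚ ≃ₐ[ℚ] AlgebraicClosure ℚ) :
    Points A B →+ Points A B :=
  WeierstrassCurve.Affine.Point.map (σ : AlgebraicClosure ℚ →ₐ[ℚ] AlgebraicClosure ℚ)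

/-- The curves `y² = x³ + Ax + B` and `y² = x³ + A'x + B'` are `p`-congruent: some map between the
groups of points restricts to a bijective additive map between the groups of points killed by `p` which
commutes with the Galois group. -/
def Congruent (p : ℕ) (A B A' B' : ℚ) : Prop :=
  ∃ f : Points A B → Points A' B', (∀ P Q, p • P = 0 → p • Q = 0 → f (P + Q) = f P + f Q) ∧
    Set.BijOn f {P | p • P = 0} {Q | p • Q = 0} ∧
    ∀ (σ : AlgebraicClosure ℚ ≃ₐ[ℚ] AlgebraicClosure ℚ) (P : Points A B), p • P = 0 →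
      f (galois A B σ P) = galois A' B' σ (f P)

/-- The invariant of `y² = x³ + Ax + B`. -/
def jInvariant (A B : ℚ) : ℚ := 6912 * A ^ 3 / (4 * A ^ 3 + 27 * B ^ 2)

/-- The height `H(j) = max (|a|, b)` of the rational number `j = a / b` in lowest terms. -/
def height (j : ℚ) : ℝ := ((max j.num.natAbs j.den : ℕ) : ℝ)

/-- The rational number `j` is exceptional: it is the invariant of an elliptic curve over `ℚ` which is `p`-congruent, for some
prime `p ≥ P`, to some elliptic curve `y² = x³ + A₀x + B₀` with integers `A₀`, `B₀` of absolute value at most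
`H(j) ^ δ`. -/
def Exceptional (P : ℕ) (δ : ℝ) (j : ℚ) : Prop :=
  ∃ A B : ℚ, 4 * A ^ 3 + 27 * B ^ 2 ≠ 0 ∧ jInvariant A B = j ∧
    ∃ A₀ B₀ : ℤ, 4 * A₀ ^ 3 + 27 * B₀ ^ 2 ≠ 0 ∧ |(A₀ : ℝ)| ≤ height j ^ δ ∧ |(B₀ : ℝ)| ≤ height j ^ δ ∧
      ∃ p : ℕ, p.Prime ∧ P ≤ p ∧ Congruent p A B (A₀ : ℚ) (B₀ : ℚ)

theorem one_le_height (j : ℚ) : 1 ≤ height j := Pool.Agent.V11149.Conv.one_le_ht j

theorem count (η : ℝ) (hη : 0 < η) : ∃ M δ : ℝ, 0 ≤ M ∧ 0 < δ ∧ ∀ P : ℕ, 17 ≤ P → ∀ X : ℝ, 1 ≤ X →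
    {j | j ∈ {j | Exceptional P δ j} ∧ Pool.Agent.V11149.Conv.ht j ≤ X}.Finite ∧
      ({j | j ∈ {j | Exceptional P δ j} ∧ Pool.Agent.V11149.Conv.ht j ≤ X}.ncard : ℝ) ≤
        M * X ^ (7 / (2 * (P : ℝ)) + η) := by
  obtain ⟨C, lam, h⟩ := FewPartners.result (η / 2) (by linarith)
  set L : ℝ := |lam| with hL
  have hL0 : 0 ≤ L := abs_nonneg _
  set δ : ℝ := η / (2 * (2 + 3 * L)) with hδ
  have hδ0 : 0 < δ := by positivity
  refine ⟨9 * (|C| * (31 : ℝ) ^ L), δ, by positivity, hδ0, fun P hP X hX => ?_⟩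
  have hX0 : (0 : ℝ) < X := by linarith
  have hXδ : (1 : ℝ) ≤ X ^ δ := Real.one_le_rpow hX hδ0.le
  set m : ℕ := ⌊X ^ δ⌋₊ with hm
  have hmle : (m : ℝ) ≤ X ^ δ := Nat.floor_le (by linarith)
  set I : Finset (ℤ × ℤ) := Finset.Icc (-(m : ℤ)) m ×ˢ Finset.Icc (-(m : ℤ)) m with hI
  set F : ℤ × ℤ → Finset ℚ := fun x =>
    if h0 : 4 * x.1 ^ 3 + 27 * x.2 ^ 2 ≠ 0 then (h x.1 x.2 h0 P X hP hX).1.toFinset else ∅ with hF
  have hsub : {j | j ∈ {j | Exceptional P δ j} ∧ Pool.Agent.V11149.Conv.ht j ≤ X} ⊆ ((I.biUnion F : Finset ℚ) : Set ℚ) := by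
    rintro j ⟨⟨A, B, h1, h2, A₀, B₀, h3, h4, h5, p, h6, h7, h8⟩, hj⟩
    have hj' : height j ≤ X := hj
    have hj0 : (0 : ℝ) ≤ height j := by linarith [one_le_height j]
    have hup : height j ^ δ ≤ X ^ δ := Real.rpow_le_rpow hj0 hj' hδ0.le
    have hint : ∀ a : ℤ, |(a : ℝ)| ≤ height j ^ δ → a ∈ Finset.Icc (-(m : ℤ)) m := by
      intro a ha
      have h9 : ((a.natAbs : ℕ) : ℝ) ≤ X ^ δ := by
        rw [Nat.cast_natAbs, Int.cast_abs]
        exact ha.trans hup
      have h10 : a.natAbs ≤ m := Nat.le_floor h9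
      rw [Finset.mem_Icc]
      omega
    rw [Finset.mem_coe, Finset.mem_biUnion]
    refine ⟨(A₀, B₀), ?_, ?_⟩
    · rw [hI, Finset.mem_product]
      exact ⟨hint A₀ h4, hint B₀ h5⟩
    · rw [hF]
      simp only
      rw [dif_pos h3, Set.Finite.mem_toFinset]
      have hn : (j.num.natAbs : ℝ) ≤ height j := by
        unfold height
        exact_mod_cast le_max_left j.num.natAbs j.den
      have hd : (j.den : ℝ) ≤ height j := by
        unfold height
        exact_mod_cast le_max_right j.num.natAbs j.den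
      have ha : |(j.num : ℝ)| = (j.num.natAbs : ℝ) := by
        rw [← Int.cast_abs, Int.abs_eq_natAbs]
        simp
      refine ⟨?_, hd.trans hj', A, B, h1, h2, p, h6, h7, h8⟩
      rw [ha]
      exact hn.trans hj'
  refine ⟨(Finset.finite_toSet _).subset hsub, ?_⟩
  have hcard : ∀ x ∈ I, ((F x).card : ℝ) ≤ |C| * (31 : ℝ) ^ L * X ^ (3 * δ * L + (7 / (2 * (P : ℝ)) + η / 2)) := by
    intro x hx
    rw [hI, Finset.mem_product, Finset.mem_Icc, Finset.mem_Icc] at hx
    rw [hF]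
    simp only
    split_ifs with h0
    · have h1 := (h x.1 x.2 h0 P X hP hX).2
      rw [Set.ncard_eq_toFinset_card _ (h x.1 x.2 h0 P X hP hX).1] at h1
      refine h1.trans ?_
      have hx1 : |(x.1 : ℝ)| ≤ X ^ δ := by
        refine le_trans ?_ hmle
        rw [abs_le]
        constructor
        · exact_mod_cast hx.1.1
        · exact_mod_cast hx.1.2
      have hx2 : |(x.2 : ℝ)| ≤ X ^ δ := by
        refine le_trans ?_ hmle
        rw [abs_le]
        constructor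
        · exact_mod_cast hx.2.1
        · exact_mod_cast hx.2.2
      have hone : (1 : ℝ) ≤ |((4 * x.1 ^ 3 + 27 * x.2 ^ 2 : ℤ) : ℝ)| := by
        have : (1 : ℤ) ≤ |4 * x.1 ^ 3 + 27 * x.2 ^ 2| := Int.one_le_abs h0
        exact_mod_cast this
      have hup : |((4 * x.1 ^ 3 + 27 * x.2 ^ 2 : ℤ) : ℝ)| ≤ 31 * X ^ (3 * δ) := by
        have e1 : X ^ (3 * δ) = (X ^ δ) ^ 3 := by
          rw [mul_comm, Real.rpow_mul hX0.le]
          norm_num
        push_cast
        calc |4 * (x.1 : ℝ) ^ 3 + 27 * (x.2 : ℝ) ^ 2| ≤ |4 * (x.1 : ℝ) ^ 3| + |27 * (x.2 : ℝ) ^ 2| := abs_add_le _ _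
          _ = 4 * |(x.1 : ℝ)| ^ 3 + 27 * |(x.2 : ℝ)| ^ 2 := by
              rw [abs_mul, abs_mul, abs_pow, abs_pow]
              norm_num
          _ ≤ 4 * (X ^ δ) ^ 3 + 27 * (X ^ δ) ^ 3 := by
              have e2 : |(x.1 : ℝ)| ^ 3 ≤ (X ^ δ) ^ 3 := pow_le_pow_left₀ (abs_nonneg _) hx1 3
              have e3 : |(x.2 : ℝ)| ^ 2 ≤ (X ^ δ) ^ 2 := pow_le_pow_left₀ (abs_nonneg _) hx2 2
              have e4 : (X ^ δ) ^ 2 ≤ (X ^ δ) ^ 3 := pow_le_pow_right₀ hXδ (by norm_num)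
              linarith
          _ = 31 * X ^ (3 * δ) := by rw [e1]; ring
      have hpow : |((4 * x.1 ^ 3 + 27 * x.2 ^ 2 : ℤ) : ℝ)| ^ lam ≤ (31 : ℝ) ^ L * X ^ (3 * δ * L) := by
        calc |((4 * x.1 ^ 3 + 27 * x.2 ^ 2 : ℤ) : ℝ)| ^ lam ≤ |((4 * x.1 ^ 3 + 27 * x.2 ^ 2 : ℤ) : ℝ)| ^ L :=
              Real.rpow_le_rpow_of_exponent_le hone (le_abs_self _)
          _ ≤ (31 * X ^ (3 * δ)) ^ L := Real.rpow_le_rpow (by linarith) hup hL0
          _ = (31 : ℝ) ^ L * X ^ (3 * δ * L) := by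
              rw [Real.mul_rpow (by norm_num) (by positivity), ← Real.rpow_mul hX0.le]
      have hexp : X ^ (7 / (2 * (P : ℝ)) + η / 2) > 0 := Real.rpow_pos_of_pos hX0 _
      calc C * |((4 * x.1 ^ 3 + 27 * x.2 ^ 2 : ℤ) : ℝ)| ^ lam * X ^ (7 / (2 * (P : ℝ)) + η / 2)
          ≤ |C| * |((4 * x.1 ^ 3 + 27 * x.2 ^ 2 : ℤ) : ℝ)| ^ lam * X ^ (7 / (2 * (P : ℝ)) + η / 2) := by
            apply mul_le_mul_of_nonneg_right _ hexp.le
            exact mul_le_mul_of_nonneg_right (le_abs_self C) (by positivity)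
        _ ≤ |C| * ((31 : ℝ) ^ L * X ^ (3 * δ * L)) * X ^ (7 / (2 * (P : ℝ)) + η / 2) := by
            apply mul_le_mul_of_nonneg_right _ hexp.le
            exact mul_le_mul_of_nonneg_left hpow (abs_nonneg C)
        _ = |C| * (31 : ℝ) ^ L * X ^ (3 * δ * L + (7 / (2 * (P : ℝ)) + η / 2)) := by
            rw [Real.rpow_add hX0 (3 * δ * L) (7 / (2 * (P : ℝ)) + η / 2)]
            ring
    · simp only [Finset.card_empty, Nat.cast_zero]
      positivity
  have hIcard : (I.card : ℝ) ≤ 9 * X ^ (2 * δ) := by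
    have e1 : X ^ (2 * δ) = (X ^ δ) ^ 2 := by
      rw [mul_comm, Real.rpow_mul hX0.le]
      norm_num
    have e2 : I.card = (2 * m + 1) * (2 * m + 1) := by
      rw [hI, Finset.card_product, Int.card_Icc]
      have : ((m : ℤ) + 1 - -(m : ℤ)).toNat = 2 * m + 1 := by omega
      rw [this]
    rw [e2, e1]
    push_cast
    nlinarith
  have h1 : ({j | j ∈ {j | Exceptional P δ j} ∧ Pool.Agent.V11149.Conv.ht j ≤ X}.ncard : ℝ) ≤ ((I.biUnion F).card : ℝ) := by
    have := Set.ncard_le_ncard hsub (Finset.finite_toSet _)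
    rw [Set.ncard_coe_finset] at this
    exact_mod_cast this
  have h2 : ((I.biUnion F).card : ℝ) ≤ ∑ x ∈ I, ((F x).card : ℝ) := by
    exact_mod_cast Finset.card_biUnion_le
  have h3 := Finset.sum_le_card_nsmul I (fun x => ((F x).card : ℝ)) _ hcard
  rw [nsmul_eq_mul] at h3
  have hδL : 2 * δ + 3 * δ * L = η / 2 := by
    rw [hδ]
    field_simp
  calc ({j | j ∈ {j | Exceptional P δ j} ∧ Pool.Agent.V11149.Conv.ht j ≤ X}.ncard : ℝ)
      ≤ (I.card : ℝ) * (|C| * (31 : ℝ) ^ L * X ^ (3 * δ * L + (7 / (2 * (P : ℝ)) + η / 2))) := h1.trans (h2.trans h3)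
    _ ≤ (9 * X ^ (2 * δ)) * (|C| * (31 : ℝ) ^ L * X ^ (3 * δ * L + (7 / (2 * (P : ℝ)) + η / 2))) :=
        mul_le_mul_of_nonneg_right hIcard (by positivity)
    _ = 9 * (|C| * (31 : ℝ) ^ L) * (X ^ (2 * δ) * X ^ (3 * δ * L + (7 / (2 * (P : ℝ)) + η / 2))) := by ring
    _ = 9 * (|C| * (31 : ℝ) ^ L) * X ^ (7 / (2 * (P : ℝ)) + η) := by
        rw [← Real.rpow_add hX0]
        congr 2
        linarith

/-- (1) For every `η > 0` there is `δ > 0` such that for all `P ≥ 17` and `κ > 0` there is a set `E` of Hausdorff dimension at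
most `(7 / (2 P) + η) / κ` such that for all real `ξ` outside `E` and all `K` only finitely many rational numbers `j` with
`|j - ξ| ≤ K (den j) ^ (-κ)` are exceptional for `P` and `δ`.
(2) There is a set `Z` of Hausdorff dimension zero such that for every real `ξ` outside `Z` and every `κ > 0` there are `P`
and `δ > 0` such that for all `K` only finitely many rational numbers `j` with `|j - ξ| ≤ K (den j) ^ (-κ)` are exceptional
for `P` and `δ`. -/
theorem result :
    (∀ η : ℝ, 0 < η → ∃ δ : ℝ, 0 < δ ∧ ∀ P : ℕ, 17 ≤ P → ∀ κ : ℝ, 0 < κ →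
      ∃ E : Set ℝ, dimH E ≤ ENNReal.ofReal ((7 / (2 * (P : ℝ)) + η) / κ) ∧ ∀ ξ : ℝ, ξ ∉ E → ∀ K : ℝ,
        {j : ℚ | Exceptional P δ j ∧ |(j : ℝ) - ξ| ≤ K * (j.den : ℝ) ^ (-κ)}.Finite) ∧
    (∃ Z : Set ℝ, dimH Z = 0 ∧ ∀ ξ : ℝ, ξ ∉ Z → ∀ κ : ℝ, 0 < κ → ∃ (P : ℕ) (δ : ℝ), 0 < δ ∧ ∀ K : ℝ,
        {j : ℚ | Exceptional P δ j ∧ |(j : ℝ) - ξ| ≤ K * (j.den : ℝ) ^ (-κ)}.Finite) := by
  constructor
  · intro η hη
    obtain ⟨M, δ, hM, hδ, h⟩ := count η hη
    refine ⟨δ, hδ, fun P hP κ hκ => ?_⟩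
    have hP0 : (0 : ℝ) < P := by
      have : 0 < P := by omega
      exact_mod_cast this
    exact Pool.Agent.V11149.Conv.approx_rat {j | Exceptional P δ j} (s := 7 / (2 * (P : ℝ)) + η) (by positivity) hκ (by
      intro ε hε
      refine ⟨M, fun X hX => ⟨(h P hP X hX).1, (h P hP X hX).2.trans ?_⟩⟩
      apply mul_le_mul_of_nonneg_left _ hM
      exact Real.rpow_le_rpow_of_exponent_le hX (by linarith))
  · obtain ⟨Z, hZ, h⟩ := Pool.Agent.V11149.Conv.approx_zero
      (ι := {x : ℕ × ℝ // 0 < x.2}) (fun i => {j | Exceptional i.1.1 i.1.2 j}) (by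
        intro δ' hδ'
        obtain ⟨M, δ, hM, hδ, h⟩ := count (δ' / 2) (by linarith)
        obtain ⟨n, hn⟩ := exists_nat_gt (max 17 (7 / δ'))
        have hn5 : (17 : ℝ) < n := lt_of_le_of_lt (le_max_left _ _) hn
        have hn5' : 17 ≤ n := by
          have : 17 < n := by exact_mod_cast hn5
          omega
        have hnδ : 7 / δ' < n := lt_of_le_of_lt (le_max_right _ _) hn
        have hn0 : (0 : ℝ) < n := by linarith
        have h5 : 7 / (2 * (n : ℝ)) + δ' / 2 ≤ δ' := by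
          have h6 : 7 / (2 * (n : ℝ)) ≤ δ' / 2 := by
            rw [div_le_div_iff₀ (by positivity) (by norm_num)]
            rw [div_lt_iff₀ hδ'] at hnδ
            linarith
          linarith
        refine ⟨⟨(n, δ), hδ⟩, M, fun X hX => ⟨(h n hn5' X hX).1, (h n hn5' X hX).2.trans ?_⟩⟩
        apply mul_le_mul_of_nonneg_left _ hM
        exact Real.rpow_le_rpow_of_exponent_le hX h5)
    refine ⟨Z, hZ, fun ξ hξ κ hκ => ?_⟩
    obtain ⟨i, hi⟩ := h ξ hξ κ hκ
    exact ⟨i.1.1, i.1.2, i.2, hi⟩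

end Pool.Agent.Results.MP_a60a76_nt.NearAlmostEveryPoint
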