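import Pool.Agent.Results.MP_a60a76_nt.InvariantWindows
import Pool.Agent.V11001.KM.Near

/-!
# The elliptic curves near the powers of almost every number are not congruent to any small elliptic curve

Let `P ≥ 17`. For almost every real `z > 1` and every `θ < 1 - 7 / (2 P)` there is `η > 0` such that for all but finitely
many rational numbers `j` with `|H(j) - β z ^ (ν n)| ≤ z ^ (θ ν n)` for some `n` (where `ν n / log n → ∞`, for example
`ν n = n`) the elliptic curves over `ℚ` with invariant `j` are not `p`-congruent, for any prime `p ≥ P`, to ANY elliptic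
curve `y² = x³ + A₀x + B₀` with integers `|A₀|, |B₀| ≤ H(j) ^ η`. The same in windows around the numbers `α v_n` for
almost every `α`. The starting results concern a single fixed curve `y² = x³ + A₀x + B₀`.
-/

set_option autoImplicit false

namespace Pool.Agent.Results.MP_a60a76_nt.NoSmallPartners

open WeierstrassCurve Pool.Agent.V11001.KM
open InvariantWindows (Congruent jInvariant ht Exc)

/-- the exponent of convergence of the sequence `v` is at most `τ` -/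
def ExpLe (v : ℕ → ℝ) (τ : ℝ) : Prop := ∀ t : ℝ, τ < t → Summable (fun n : ℕ => (v n) ^ (-t))

/-- Some elliptic curve over `ℚ` with invariant `j` is `p`-congruent, for some prime `p ≥ P`, to an elliptic curve
`y² = x³ + A₀x + B₀` with integers `|A₀|, |B₀| ≤ H(j) ^ η`. -/
def SmallPartner (P : ℕ) (η : ℝ) (j : ℚ) : Prop :=
  ∃ A₀ B₀ : ℤ, 4 * A₀ ^ 3 + 27 * B₀ ^ 2 ≠ 0 ∧ (|A₀| : ℝ) ≤ (ht j : ℝ) ^ η ∧ (|B₀| : ℝ) ≤ (ht j : ℝ) ^ η ∧
    ∃ A B : ℚ, 4 * A ^ 3 + 27 * B ^ 2 ≠ 0 ∧ jInvariant A B = j ∧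
      ∃ p : ℕ, p.Prime ∧ P ≤ p ∧ Congruent p A B (A₀ : ℚ) (B₀ : ℚ)

lemma ht_pos (j : ℚ) : 1 ≤ ht j := le_trans j.pos (le_max_right _ _)

lemma count (P : ℕ) (hP : 17 ≤ P) (s : ℝ) (hs : 7 / (2 * P) < s) :
    ∃ η : ℝ, 0 < η ∧ ∃ C : ℝ, 0 ≤ C ∧ ∀ X : ℝ, 1 ≤ X →
      {j | j ∈ {j : ℚ | SmallPartner P η j} ∧ (ht j : ℝ) ≤ X}.Finite ∧
      ({j | j ∈ {j : ℚ | SmallPartner P η j} ∧ (ht j : ℝ) ≤ X}.ncard : ℝ) ≤ C * X ^ s := by
  classical
  set ε : ℝ := (s - 7 / (2 * P)) / 2 with hε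
  have hε0 : 0 < ε := by rw [hε]; linarith
  obtain ⟨C, κ, h⟩ := FewPartners.result ε hε0
  set κ' : ℝ := max κ 0 with hκ'
  have hκ0 : 0 ≤ κ' := le_max_right _ _
  set η : ℝ := ε / (2 + 3 * κ') with hη
  have hη0 : 0 < η := by positivity
  refine ⟨η, hη0, 9 * (|C| * 31 ^ κ'), by positivity, fun X hX => ?_⟩
  have hX0 : 0 < X := by linarith
  set Y : ℝ := X ^ η with hY
  have hY1 : 1 ≤ Y := Real.one_le_rpow hX hη0.le
  have hY0 : 0 < Y := by linarith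
  set M : ℤ := ⌊Y⌋ with hM
  have hMY : (M : ℝ) ≤ Y := Int.floor_le Y
  have hM1 : 1 ≤ M := Int.le_floor.2 (by exact_mod_cast hY1)
  set Box : Finset (ℤ × ℤ) := Finset.Icc (-M) M ×ˢ Finset.Icc (-M) M with hBox
  set F : ℤ × ℤ → Finset ℚ := fun q => if hq : 4 * q.1 ^ 3 + 27 * q.2 ^ 2 ≠ 0 then
    (h q.1 q.2 hq P X hP hX).1.toFinset else ∅ with hF
  have hFc : ∀ q ∈ Box, ((F q).card : ℝ) ≤ |C| * 31 ^ κ' * X ^ (3 * η * κ' + (7 / (2 * P) + ε)) := by
    intro q hq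
    rw [hBox, Finset.mem_product, Finset.mem_Icc, Finset.mem_Icc] at hq
    by_cases hD : 4 * q.1 ^ 3 + 27 * q.2 ^ 2 ≠ 0
    · have h1 := (h q.1 q.2 hD P X hP hX).2
      have e1 : (F q).card = (FewPartners.Partners P q.1 q.2 X).ncard := by
        rw [hF]
        simp only [dif_pos hD]
        exact (Set.ncard_eq_toFinset_card _ (h q.1 q.2 hD P X hP hX).1).symm
      rw [e1]
      refine h1.trans ?_
      have hD1 : (1 : ℝ) ≤ |((4 * q.1 ^ 3 + 27 * q.2 ^ 2 : ℤ) : ℝ)| := by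
        have := Int.one_le_abs hD
        exact_mod_cast this
      have hDle : |((4 * q.1 ^ 3 + 27 * q.2 ^ 2 : ℤ) : ℝ)| ≤ 31 * Y ^ 3 := by
        have ha : |(q.1 : ℝ)| ≤ Y := by
          rw [abs_le]
          constructor
          · have : (-M : ℤ) ≤ q.1 := hq.1.1
            have h2 : (-(M : ℝ)) ≤ (q.1 : ℝ) := by exact_mod_cast this
            linarith
          · have : q.1 ≤ M := hq.1.2
            have h2 : (q.1 : ℝ) ≤ (M : ℝ) := by exact_mod_cast this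
            linarith
        have hb : |(q.2 : ℝ)| ≤ Y := by
          rw [abs_le]
          constructor
          · have : (-M : ℤ) ≤ q.2 := hq.2.1
            have h2 : (-(M : ℝ)) ≤ (q.2 : ℝ) := by exact_mod_cast this
            linarith
          · have : q.2 ≤ M := hq.2.2
            have h2 : (q.2 : ℝ) ≤ (M : ℝ) := by exact_mod_cast this
            linarith
        push_cast
        calc |4 * (q.1 : ℝ) ^ 3 + 27 * (q.2 : ℝ) ^ 2| ≤ |4 * (q.1 : ℝ) ^ 3| + |27 * (q.2 : ℝ) ^ 2| := abs_add_le _ _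
          _ = 4 * |(q.1 : ℝ)| ^ 3 + 27 * |(q.2 : ℝ)| ^ 2 := by
              rw [abs_mul, abs_mul, abs_pow, abs_pow, abs_of_pos (by norm_num : (0 : ℝ) < 4),
                abs_of_pos (by norm_num : (0 : ℝ) < 27)]
          _ ≤ 4 * Y ^ 3 + 27 * Y ^ 2 := by
              have h3 := pow_le_pow_left₀ (abs_nonneg _) ha 3
              have h4 := pow_le_pow_left₀ (abs_nonneg _) hb 2
              linarith
          _ ≤ 31 * Y ^ 3 := by
              have : Y ^ 2 ≤ Y ^ 3 := pow_le_pow_right₀ hY1 (by norm_num)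
              linarith
      have h2 : |((4 * q.1 ^ 3 + 27 * q.2 ^ 2 : ℤ) : ℝ)| ^ κ ≤ 31 ^ κ' * X ^ (3 * η * κ') := by
        calc |((4 * q.1 ^ 3 + 27 * q.2 ^ 2 : ℤ) : ℝ)| ^ κ ≤ |((4 * q.1 ^ 3 + 27 * q.2 ^ 2 : ℤ) : ℝ)| ^ κ' :=
              Real.rpow_le_rpow_of_exponent_le hD1 (le_max_left _ _)
          _ ≤ (31 * Y ^ 3) ^ κ' := Real.rpow_le_rpow (abs_nonneg _) hDle hκ0
          _ = 31 ^ κ' * X ^ (3 * η * κ') := by
              rw [Real.mul_rpow (by norm_num) (by positivity), hY, ← Real.rpow_natCast, ← Real.rpow_mul hX0.le,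
                ← Real.rpow_mul hX0.le]
              congr 2
              push_cast
              ring
      have h3 : 0 ≤ X ^ (7 / (2 * (P : ℝ)) + ε) := by positivity
      calc C * |((4 * q.1 ^ 3 + 27 * q.2 ^ 2 : ℤ) : ℝ)| ^ κ * X ^ (7 / (2 * (P : ℝ)) + ε)
          ≤ |C| * |((4 * q.1 ^ 3 + 27 * q.2 ^ 2 : ℤ) : ℝ)| ^ κ * X ^ (7 / (2 * (P : ℝ)) + ε) :=
            mul_le_mul_of_nonneg_right (mul_le_mul_of_nonneg_right (le_abs_self C) (by positivity)) h3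
        _ ≤ |C| * (31 ^ κ' * X ^ (3 * η * κ')) * X ^ (7 / (2 * (P : ℝ)) + ε) :=
            mul_le_mul_of_nonneg_right (mul_le_mul_of_nonneg_left h2 (abs_nonneg C)) h3
        _ = |C| * 31 ^ κ' * X ^ (3 * η * κ' + (7 / (2 * P) + ε)) := by
            rw [Real.rpow_add hX0 (3 * η * κ') (7 / (2 * (P : ℝ)) + ε)]
            ring
    · have e1 : (F q).card = 0 := by
        rw [hF]
        simp only [dif_neg hD, Finset.card_empty]
      rw [e1, Nat.cast_zero]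
      positivity
  have hsub : {j | j ∈ {j : ℚ | SmallPartner P η j} ∧ (ht j : ℝ) ≤ X} ⊆ ((Box.biUnion F : Finset ℚ) : Set ℚ) := by
    rintro j ⟨⟨A₀, B₀, hD, h1, h2, A, B, h3, h4, h5⟩, hj⟩
    rw [Finset.mem_coe, Finset.mem_biUnion]
    have hjY : (ht j : ℝ) ^ η ≤ Y := Real.rpow_le_rpow (Nat.cast_nonneg _) hj hη0.le
    have hA : |A₀| ≤ M := Int.le_floor.2 (by push_cast; exact h1.trans hjY)
    have hB : |B₀| ≤ M := Int.le_floor.2 (by push_cast; exact h2.trans hjY)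
    refine ⟨(A₀, B₀), ?_, ?_⟩
    · rw [hBox, Finset.mem_product, Finset.mem_Icc, Finset.mem_Icc]
      exact ⟨abs_le.1 hA, abs_le.1 hB⟩
    · rw [hF]
      simp only [dif_pos hD]
      rw [Set.Finite.mem_toFinset]
      have hn : (j.num.natAbs : ℝ) ≤ (ht j : ℝ) := by exact_mod_cast le_max_left j.num.natAbs j.den
      have hd : (j.den : ℝ) ≤ (ht j : ℝ) := by exact_mod_cast le_max_right j.num.natAbs j.den
      have ha : |(j.num : ℝ)| = (j.num.natAbs : ℝ) := by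
        rw [← Int.cast_abs, Int.abs_eq_natAbs]
        simp
      refine ⟨?_, hd.trans hj, A, B, h3, h4, h5⟩
      rw [ha]
      exact hn.trans hj
  refine ⟨(Finset.finite_toSet _).subset hsub, ?_⟩
  have h1 := Set.ncard_le_ncard hsub (Finset.finite_toSet _)
  rw [Set.ncard_coe_finset] at h1
  have h2 : ({j | j ∈ {j : ℚ | SmallPartner P η j} ∧ (ht j : ℝ) ≤ X}.ncard : ℝ) ≤ ((Box.biUnion F).card : ℝ) := by
    exact_mod_cast h1
  have h3 : ((Box.biUnion F).card : ℝ) ≤ ∑ q ∈ Box, ((F q).card : ℝ) := by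
    exact_mod_cast Finset.card_biUnion_le
  have h4 : (Box.card : ℝ) ≤ 9 * X ^ (2 * η) := by
    have e1 : (Box.card : ℝ) = (2 * (M : ℝ) + 1) * (2 * (M : ℝ) + 1) := by
      rw [hBox, Finset.card_product, Int.card_Icc]
      have e2 : ((M + 1 - -M).toNat : ℤ) = 2 * M + 1 := by
        rw [Int.toNat_of_nonneg (by linarith)]
        ring
      have e3 : (((M + 1 - -M).toNat : ℕ) : ℝ) = 2 * (M : ℝ) + 1 := by exact_mod_cast e2
      rw [Nat.cast_mul, e3]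
    have e2 : X ^ (2 * η) = Y * Y := by
      rw [hY, ← Real.rpow_add hX0]
      congr 1
      ring
    have hM1' : (1 : ℝ) ≤ M := by exact_mod_cast hM1
    rw [e1, e2]
    nlinarith
  calc ({j | j ∈ {j : ℚ | SmallPartner P η j} ∧ (ht j : ℝ) ≤ X}.ncard : ℝ) ≤ ∑ q ∈ Box, ((F q).card : ℝ) := h2.trans h3
    _ ≤ ∑ _q ∈ Box, |C| * 31 ^ κ' * X ^ (3 * η * κ' + (7 / (2 * P) + ε)) := Finset.sum_le_sum hFc
    _ = (Box.card : ℝ) * (|C| * 31 ^ κ' * X ^ (3 * η * κ' + (7 / (2 * P) + ε))) := by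
        rw [Finset.sum_const, nsmul_eq_mul]
    _ ≤ 9 * X ^ (2 * η) * (|C| * 31 ^ κ' * X ^ (3 * η * κ' + (7 / (2 * P) + ε))) :=
        mul_le_mul_of_nonneg_right h4 (by positivity)
    _ = 9 * (|C| * 31 ^ κ') * (X ^ (2 * η) * X ^ (3 * η * κ' + (7 / (2 * P) + ε))) := by ring
    _ = 9 * (|C| * 31 ^ κ') * X ^ s := by
        rw [← Real.rpow_add hX0]
        congr 2
        have e1 : 2 * η + 3 * η * κ' = ε := by
          rw [hη]
          field_simp
        rw [← add_assoc, ← add_assoc, e1, hε]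
        ring

/-- **Theorem.** Let `P ≥ 17`.
(1) Let `ν n / log n → ∞` and let `U` be a countable set of real numbers. For `θ < 1` there is a set `E` of Hausdorff
dimension at most `7 / (2 P) / (1 - θ)` such that for each `z > 1` outside `E` there is `η > 0` such that for each positive
`β` in `U` only finitely many rational numbers `j` with `|H(j) - β z ^ (ν n)| ≤ z ^ (θ ν n)` for some `n` have a small
partner: are invariants of elliptic curves over `ℚ` that are `p`-congruent, for a prime `p ≥ P`, to an elliptic curve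
`y² = x³ + A₀x + B₀` with integers `|A₀|, |B₀| ≤ H(j) ^ η`.
(2) For almost every real `z > 1` and all `θ < 1 - 7 / (2 P)` there is such a number `η`.
(3) Let `v ≥ 1` be a sequence of exponent of convergence at most `τ ≥ 0` and `θ < 1`. For all `α > 0` outside a set of
Hausdorff dimension at most `(7 / (2 P) + τ) / (1 - θ)` there are `η > 0` and `n₀` such that for all `n ≥ n₀` no rational
number `j` with `|H(j) - α v_n| ≤ v_n ^ θ` has a small partner. -/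
theorem result : ∀ P : ℕ, 17 ≤ P →
    (∀ ν : ℕ → ℝ, Fast ν → ∀ U : Set ℝ, U.Countable →
      (∀ θ : ℝ, θ < 1 → ∃ E : Set ℝ, dimH E ≤ ENNReal.ofReal (7 / (2 * P) / (1 - θ)) ∧
        ∀ z : ℝ, 1 < z → z ∉ E → ∃ η : ℝ, 0 < η ∧ ∀ β ∈ U, 0 < β →
          {j : ℚ | SmallPartner P η j ∧ Near ν θ β z (ht j)}.Finite) ∧
      (∀ᵐ z : ℝ, 1 < z → ∀ θ : ℝ, θ < 1 - 7 / (2 * P) → ∃ η : ℝ, 0 < η ∧ ∀ β ∈ U, 0 < β →
          {j : ℚ | SmallPartner P η j ∧ Near ν θ β z (ht j)}.Finite)) ∧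
    (∀ (v : ℕ → ℝ) (τ θ : ℝ), (∀ n, 1 ≤ v n) → 0 ≤ τ → ExpLe v τ → θ < 1 →
      ∃ E : Set ℝ, dimH E ≤ ENNReal.ofReal ((7 / (2 * P) + τ) / (1 - θ)) ∧
        ∀ α : ℝ, 0 < α → α ∉ E → ∃ η : ℝ, 0 < η ∧ ∃ n₀ : ℕ, ∀ n : ℕ, n₀ ≤ n → ∀ j : ℚ,
          |(ht j : ℝ) - α * v n| ≤ (v n) ^ θ → ¬ SmallPartner P η j) := by
  intro P hP
  have hP0 : (0 : ℝ) < P := by exact_mod_cast (by omega : 0 < P)
  have hk : ∀ k : ℕ, (7 : ℝ) / (2 * P) < 7 / (2 * P) + 1 / ((k : ℝ) + 1) := fun k => by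
    have : (0 : ℝ) < 1 / ((k : ℝ) + 1) := by positivity
    linarith
  choose η hη C hC hcount using fun k : ℕ => count P hP (7 / (2 * P) + 1 / ((k : ℝ) + 1)) (hk k)
  have hs : ∀ k : ℕ, (0 : ℝ) ≤ 7 / (2 * P) + 1 / ((k : ℝ) + 1) := fun k => by positivity
  have hcount' : ∀ k : ℕ, ∀ ε : ℝ, 0 < ε → ∃ C : ℝ, ∀ X : ℝ, 1 ≤ X →
      {j | j ∈ {j : ℚ | SmallPartner P (η k) j} ∧ (ht j : ℝ) ≤ X}.Finite ∧
      ({j | j ∈ {j : ℚ | SmallPartner P (η k) j} ∧ (ht j : ℝ) ≤ X}.ncard : ℝ) ≤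
        C * X ^ (7 / (2 * (P : ℝ)) + 1 / ((k : ℝ) + 1) + ε) := by
    intro k ε hε
    refine ⟨C k, fun X hX => ⟨(hcount k X hX).1, (hcount k X hX).2.trans ?_⟩⟩
    exact mul_le_mul_of_nonneg_left (Real.rpow_le_rpow_of_exponent_le hX (by linarith)) (hC k)
  refine ⟨fun ν hν U hU => ⟨fun θ hθ => ?_, ?_⟩, fun v τ θ hv hτ hE hθ => ?_⟩
  · have hall : ∀ k : ℕ, ∃ E : Set ℝ, dimH E ≤ ENNReal.ofReal ((7 / (2 * (P : ℝ)) + 1 / ((k : ℝ) + 1)) / (1 - θ)) ∧
        ∀ z : ℝ, 1 < z → z ∉ E → ∀ β ∈ U, 0 < β →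
          {j : ℚ | SmallPartner P (η k) j ∧ Near ν θ β z (ht j)}.Finite := by
      intro k
      obtain ⟨E, h1, h2⟩ := family (fun j : ℚ => (ht j : ℝ)) hν (hs k) hθ U hU
        (fun _ : Unit => {j : ℚ | SmallPartner P (η k) j}) (fun _ => hcount' k)
      exact ⟨E, h1, fun z hz hzE β hβ hβ0 => h2 z hz hzE β hβ hβ0 ()⟩
    choose E h1 h2 using hall
    refine ⟨⋂ k, E k, ?_, fun z hz hzE => ?_⟩
    · have h3 : Filter.Tendsto (fun k : ℕ => ENNReal.ofReal ((7 / (2 * (P : ℝ)) + 1 / ((k : ℝ) + 1)) / (1 - θ)))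
          Filter.atTop (nhds (ENNReal.ofReal (7 / (2 * P) / (1 - θ)))) := by
        apply ENNReal.tendsto_ofReal
        have h4 : Filter.Tendsto (fun k : ℕ => (7 / (2 * (P : ℝ)) + 1 / ((k : ℝ) + 1)) / (1 - θ)) Filter.atTop
            (nhds ((7 / (2 * (P : ℝ)) + 0) / (1 - θ))) :=
          (tendsto_one_div_add_atTop_nhds_zero_nat.const_add _).div_const _
        simpa using h4
      exact ge_of_tendsto' h3 fun k => le_trans (dimH_mono (Set.iInter_subset _ k)) (h1 k)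
    · rw [Set.mem_iInter, not_forall] at hzE
      obtain ⟨k, hk⟩ := hzE
      exact ⟨η k, hη k, h2 k z hz hk⟩
  · have hall : ∀ k : ℕ, ∀ᵐ z : ℝ, 1 < z → ∀ θ : ℝ, θ < 1 - (7 / (2 * (P : ℝ)) + 1 / ((k : ℝ) + 1)) → ∀ β ∈ U, 0 < β →
          {j : ℚ | SmallPartner P (η k) j ∧ Near ν θ β z (ht j)}.Finite := by
      intro k
      filter_upwards [ae_family (fun j : ℚ => (ht j : ℝ)) hν (hs k) U hU
        (fun _ : Unit => {j : ℚ | SmallPartner P (η k) j}) (fun _ => hcount' k)] with z hz hz1 θ hθ β hβ hβ0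
      exact hz hz1 θ hθ β hβ hβ0 ()
    filter_upwards [MeasureTheory.ae_all_iff.2 hall] with z hz hz1 θ hθ
    obtain ⟨k, hk⟩ := exists_nat_one_div_lt (show 0 < 1 - 7 / (2 * (P : ℝ)) - θ by linarith)
    exact ⟨η k, hη k, fun β hβ hβ0 => hz k hz1 θ (by linarith) β hβ hβ0⟩
  · have hall : ∀ k : ℕ, ∃ E : Set ℝ,
        dimH E ≤ ENNReal.ofReal ((7 / (2 * (P : ℝ)) + 1 / ((k : ℝ) + 1) + τ) / (1 - θ)) ∧
        ∀ α : ℝ, 0 < α → α ∉ E → ∃ n₀ : ℕ, ∀ n : ℕ, n₀ ≤ n → ∀ j ∈ {j : ℚ | SmallPartner P (η k) j},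
          (v n) ^ θ < |(ht j : ℝ) - α * v n| := by
      intro k
      exact Pool.Agent.Y854.GM.windows {j : ℚ | SmallPartner P (η k) j} (fun j : ℚ => (ht j : ℝ)) hv hτ hE (hs k) hθ
        (hcount' k)
    choose E h1 h2 using hall
    refine ⟨⋂ k, E k, ?_, fun α hα hαE => ?_⟩
    · have h3 : Filter.Tendsto (fun k : ℕ => ENNReal.ofReal ((7 / (2 * (P : ℝ)) + 1 / ((k : ℝ) + 1) + τ) / (1 - θ)))
          Filter.atTop (nhds (ENNReal.ofReal ((7 / (2 * P) + τ) / (1 - θ)))) := by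
        apply ENNReal.tendsto_ofReal
        have h4 : Filter.Tendsto (fun k : ℕ => (7 / (2 * (P : ℝ)) + 1 / ((k : ℝ) + 1) + τ) / (1 - θ)) Filter.atTop
            (nhds ((7 / (2 * (P : ℝ)) + 0 + τ) / (1 - θ))) :=
          ((tendsto_one_div_add_atTop_nhds_zero_nat.const_add _).add_const _).div_const _
        simpa using h4
      exact ge_of_tendsto' h3 fun k => le_trans (dimH_mono (Set.iInter_subset _ k)) (h1 k)
    · rw [Set.mem_iInter, not_forall] at hαE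
      obtain ⟨k, hk⟩ := hαE
      obtain ⟨n₀, hn⟩ := h2 k α hα hk
      exact ⟨η k, hη k, n₀, fun n hn0 j hj hcon => absurd (hn n hn0 j hcon) (not_lt.2 hj)⟩

end Pool.Agent.Results.MP_a60a76_nt.NoSmallPartners
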